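import Pool.Agent.Helper32.PD.Defs
import Pool.Agent.Helper68.Piv.Hub
import Pool.Agent.Helper68.Piv.Cherry

/-!
# PD-4: one hub in a host; PD-8: cherries
-/

set_option autoImplicit false

open Finset
open scoped Classical

namespace Pool.Agent.Helper32.PD

variable {V : Type}

open Pool.Agent.Helper68.Piv (CutConn sz nb mem_nb)

theorem conn_of_cutConn {F : SimpleGraph V} {I : Finset V} (h : CutConn F I) : Conn F I := by
  refine ⟨h.1, fun T hT hTne hTI => ?_⟩
  by_contra hno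
  push Not at hno
  exact hTI (h.2 T hT hTne fun u hu v hv hvT => hno u hu v (mem_sdiff.2 ⟨hv, hvT⟩))

/-- the vertices of a side -/
noncomputable def sd [Fintype V] (side : V → Bool) (b : Bool) : Finset V :=
  univ.filter fun v => side v = b

theorem cnt_eq_inter [Fintype V] (side : V → Bool) (b : Bool) (S : Finset V) :
    cnt side b S = ((S ∩ sd side b).card : ℝ) := by
  unfold cnt sd
  congr 2
  ext v
  simp

theorem cnt_nbh [Fintype V] (F : SimpleGraph V) (side : V → Bool) (b : Bool) (S : Finset V) :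
    cnt side b (nbh F S) = ((nb F (sd side b) S).card : ℝ) := by
  unfold cnt nbh nb sd
  congr 2
  ext v
  simp only [mem_filter, mem_univ, true_and]
  tauto

theorem card_sd [Fintype V] {F : SimpleGraph V} {side : V → Bool} {n : ℕ} {δ c : ℝ}
    (H : Host F side n δ c) (b : Bool) : (sd side b).card = n := H.card b

theorem Host.deg_sd [Fintype V] {F : SimpleGraph V} {side : V → Bool} {n : ℕ} {δ c : ℝ}
    (H : Host F side n δ c) (v : V) (b : Bool) :
    (((sd side b).filter fun x => F.Adj v x).card : ℝ) ≤ δ * n := by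
  have h := H.deg v b
  unfold cnt at h
  have h1 : (sd side b).filter (fun x => F.Adj v x) =
      (univ.filter fun w => F.Adj v w).filter fun v => side v = b := by
    unfold sd
    ext x
    simp only [mem_filter, mem_univ, true_and]
    tauto
  rw [h1]
  exact h

theorem Host.one_lt [Fintype V] {F : SimpleGraph V} {side : V → Bool} {n : ℕ} {δ c : ℝ}
    (H : Host F side n δ c) (hn : 1 ≤ n) (hδ : δ < 1) : 1 < c * n := by
  by_contra hcon
  rw [not_lt] at hcon
  obtain ⟨x, hx⟩ : (sd side true).Nonempty := card_pos.1 (by rw [card_sd H]; omega)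
  have hx' : side x = true := (mem_filter.1 hx).2
  have h1 : (sd side false).filter (fun y => F.Adj x y) = sd side false := by
    refine filter_true_of_mem fun y hy => ?_
    obtain ⟨x', hx', y', hy', h⟩ := H.dense {x} {y} (fun a ha => by
      rw [mem_singleton.1 ha]
      exact hx') (fun a ha => by
      rw [mem_singleton.1 ha]
      exact (mem_filter.1 hy).2) (by rw [card_singleton]; exact_mod_cast hcon)
      (by rw [card_singleton]; exact_mod_cast hcon)
    rw [mem_singleton.1 hx', mem_singleton.1 hy'] at h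
    exact h
  have h2 := H.deg_sd x false
  rw [h1, card_sd H] at h2
  have h3 : (1 : ℝ) ≤ n := by exact_mod_cast hn
  nlinarith

theorem Host.bi [Fintype V] {F : SimpleGraph V} {side : V → Bool} {n : ℕ} {δ c : ℝ}
    (H : Host F side n δ c) (b : Bool) : ∀ P ⊆ sd side b, ∀ Q ⊆ sd side (!b), c * n ≤ P.card →
      c * n ≤ Q.card → ∃ p ∈ P, ∃ q ∈ Q, F.Adj p q := by
  intro P hP Q hQ hPc hQc
  cases b with
  | true =>
    exact H.dense P Q (fun x hx => (mem_filter.1 (hP hx)).2) (fun x hx => (mem_filter.1 (hQ hx)).2)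
      hPc hQc
  | false =>
    obtain ⟨q, hq, p, hp, h⟩ := H.dense Q P (fun x hx => (mem_filter.1 (hQ hx)).2)
      (fun x hx => (mem_filter.1 (hP hx)).2) hQc hPc
    exact ⟨p, hp, q, hq, h.symm⟩

theorem Host.dom [Fintype V] {F : SimpleGraph V} {side : V → Bool} {n : ℕ} {δ c : ℝ}
    (H : Host F side n δ c) (b : Bool) (P : Finset V) (hP : c * n ≤ cnt side b P) :
    cnt side (!b) (univ \ nbh F P) < c * n := by
  by_contra hcon
  rw [not_lt, cnt_eq_inter] at hcon
  rw [cnt_eq_inter] at hP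
  obtain ⟨p, hp, q, hq, hpq⟩ := H.bi b (P ∩ sd side b) inter_subset_right
    ((univ \ nbh F P) ∩ sd side (!b)) inter_subset_right hP hcon
  have h1 := (mem_sdiff.1 (mem_inter.1 hq).1).2
  exact h1 (mem_filter.2 ⟨mem_univ _, p, (mem_inter.1 hp).1, hpq⟩)

theorem Host.dom' [Fintype V] {F : SimpleGraph V} {side : V → Bool} {n : ℕ} {δ c : ℝ}
    (H : Host F side n δ c) (b : Bool) (P : Finset V) (hP : c * n ≤ cnt side b P) :
    (1 - c) * n < cnt side (!b) (nbh F P) := by
  have h1 := H.dom b P hP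
  have h2 : cnt side (!b) (univ \ nbh F P) + cnt side (!b) (nbh F P) = n := by
    rw [cnt_eq_inter, cnt_eq_inter]
    have h3 : ((univ \ nbh F P) ∩ sd side (!b)).card + (nbh F P ∩ sd side (!b)).card = n := by
      rw [← card_sd H (!b), ← card_sdiff_add_card_inter (sd side (!b)) (nbh F P)]
      congr 2
      · ext v
        simp only [mem_inter, mem_sdiff, mem_univ, true_and]
        tauto
      · exact inter_comm _ _
    exact_mod_cast h3
  linarith

theorem Host.exists_hub [Fintype V] {F : SimpleGraph V} {side : V → Bool} {n : ℕ} {δ c : ℝ}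
    (H : Host F side n δ c) (hn : 1 ≤ n) (hδ : δ ≤ 1 / 8) (hc0 : 0 < c) (hc : c ≤ 1 / 8)
    (E : Finset V) (hE : ∀ b, cnt side b E ≤ n / 4) (μ : ℝ) (hμ1 : δ ≤ μ) (hμ2 : μ ≤ 1 / 4) :
    ∃ I : Finset V, Disjoint I E ∧ Conn F I ∧ (∃ b, μ * n ≤ cnt side b (nbh F I)) ∧
      (∀ b, cnt side b (nbh F I) ≤ (μ + δ) * n) ∧ ∀ b, cnt side b I < c * n := by
  have hcn := H.one_lt hn (by linarith)
  have hn0 : (1 : ℝ) ≤ n := by exact_mod_cast hn
  have hn8 : (8 : ℝ) < n := by nlinarith
  -- there are edges, so `δ n` is at least one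
  have hδn : 1 ≤ δ * n := by
    obtain ⟨p, hp, q, hq, hpq⟩ := H.bi true (sd side true) subset_rfl (sd side (!true)) subset_rfl
      (by rw [card_sd H]; nlinarith) (by rw [card_sd H]; nlinarith)
    have h1 := H.deg_sd p (!true)
    have h2 : 1 ≤ ((sd side (!true)).filter fun x => F.Adj p x).card :=
      card_pos.2 ⟨q, mem_filter.2 ⟨hq, hpq⟩⟩
    have h3 : (1 : ℝ) ≤ (((sd side (!true)).filter fun x => F.Adj p x).card : ℝ) := by
      exact_mod_cast h2
    linarith
  have hμn : 1 ≤ μ * n := by nlinarith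
  have hδ0 : 0 ≤ δ * n := by linarith
  have hceilh : (⌈c * n⌉₊ : ℝ) < c * n + 1 := Nat.ceil_lt_add_one (by positivity)
  have hceilt : (⌈μ * n⌉₊ : ℝ) < μ * n + 1 := Nat.ceil_lt_add_one (by linarith)
  have hfloor : (⌊δ * n⌋₊ : ℝ) ≤ δ * n := Nat.floor_le hδ0
  have hsub : ∀ b, 3 * ⌈c * n⌉₊ ≤ (sd side b \ E).card := by
    intro b
    have h1 := hE b
    rw [cnt_eq_inter] at h1
    have h2 : (sd side b \ E).card + (E ∩ sd side b).card = n := by
      rw [← card_sd H b, ← card_sdiff_add_card_inter (sd side b) E, inter_comm]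
    have h3 : ((sd side b \ E).card : ℝ) + ((E ∩ sd side b).card : ℝ) = n := by exact_mod_cast h2
    have h4 : (3 * ⌈c * n⌉₊ : ℝ) ≤ ((sd side b \ E).card : ℝ) := by nlinarith
    exact_mod_cast h4
  have hlt : ⌈μ * n⌉₊ + ⌊δ * n⌋₊ + ⌈c * n⌉₊ < n := by
    have h1 : (⌈μ * n⌉₊ + ⌊δ * n⌋₊ + ⌈c * n⌉₊ : ℝ) < n := by nlinarith
    exact_mod_cast h1
  obtain ⟨I, hI, hconn, hsz1, hsz2, hIA, hIB⟩ := Pool.Agent.Helper68.Piv.exists_hub F
    (sd side true) (sd side false) ⌊δ * n⌋₊ ⌈c * n⌉₊ ⌈μ * n⌉₊ (Nat.ceil_pos.2 (by linarith))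
    (fun v _ => ⟨Nat.le_floor (H.deg_sd v true), Nat.le_floor (H.deg_sd v false)⟩)
    (fun P hP Q hQ hPc hQc => H.bi true P hP Q hQ ((Nat.le_ceil _).trans (by exact_mod_cast hPc))
      ((Nat.le_ceil _).trans (by exact_mod_cast hQc))) E (hsub true)
    (by have := hsub false; omega) (Nat.ceil_pos.2 (by linarith))
    (by rw [card_sd H]; exact hlt) (by rw [card_sd H]; exact hlt)
  have hsz3 : (sz F (sd side true) (sd side false) I : ℝ) + 1 ≤ ⌈μ * n⌉₊ + ⌊δ * n⌋₊ := by
    exact_mod_cast hsz2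
  have hszle : ∀ b, ((nb F (sd side b) I).card : ℝ) ≤ sz F (sd side true) (sd side false) I := by
    intro b
    cases b with
    | true => exact_mod_cast le_max_left _ _
    | false => exact_mod_cast le_max_right _ _
  refine ⟨I, ?_, conn_of_cutConn hconn, ?_, ?_, ?_⟩
  · rw [disjoint_left]
    intro x hx hxE
    exact (mem_sdiff.1 (hI hx)).2 hxE
  · have h1 : μ * n ≤ (sz F (sd side true) (sd side false) I : ℝ) :=
      (Nat.le_ceil _).trans (by exact_mod_cast hsz1)
    rcases max_choice (nb F (sd side true) I).card (nb F (sd side false) I).card with h | h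
    · refine ⟨true, ?_⟩
      rw [cnt_nbh]
      unfold sz at h1
      rw [h] at h1
      exact h1
    · refine ⟨false, ?_⟩
      rw [cnt_nbh]
      unfold sz at h1
      rw [h] at h1
      exact h1
  · intro b
    rw [cnt_nbh]
    have := hszle b
    nlinarith
  · intro b
    rw [cnt_eq_inter]
    cases b with
    | true => exact Nat.lt_ceil.1 hIA
    | false => exact Nat.lt_ceil.1 hIB

theorem Host.exists_small [Fintype V] {F : SimpleGraph V} {side : V → Bool} {n : ℕ} {δ c : ℝ}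
    (H : Host F side n δ c) (hn : 1 ≤ n) (P : Finset V) (b : Bool)
    (hP : c * n ≤ cnt side b P) (κ : ℝ) (hκ0 : 0 < κ) (hκ : κ + c ≤ 1) :
    ∃ S ⊆ P, (∃ b', κ * n ≤ cnt side b' (nbh F S)) ∧
      ∀ b', cnt side b' (nbh F S) ≤ (κ + δ) * n := by
  have hn0 : (1 : ℝ) ≤ n := by exact_mod_cast hn
  have h1 := H.dom' b P hP
  rw [cnt_nbh] at h1
  have hszle : ∀ (b : Bool) (S : Finset V),
      ((nb F (sd side b) S).card : ℝ) ≤ sz F (sd side true) (sd side false) S := by
    intro b S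
    cases b with
    | true => exact_mod_cast le_max_left _ _
    | false => exact_mod_cast le_max_right _ _
  have hδ0 : 0 ≤ δ * n := by
    obtain ⟨x, -⟩ : (sd side true).Nonempty := card_pos.1 (by rw [card_sd H]; omega)
    have := H.deg_sd x true
    have h3 : (0 : ℝ) ≤ (((sd side true).filter fun y => F.Adj x y).card : ℝ) :=
      Nat.cast_nonneg _
    linarith
  have hκn : 0 < κ * n := by positivity
  have ht : ⌈κ * n⌉₊ ≤ sz F (sd side true) (sd side false) P := by
    refine Nat.ceil_le.2 ?_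
    have := hszle (!b) P
    nlinarith
  obtain ⟨S, hSP, hS1, hS2⟩ := Pool.Agent.Helper68.Piv.exists_leafset F (sd side true)
    (sd side false) ⌊δ * n⌋₊ ⌈κ * n⌉₊ P
    (fun v _ => ⟨Nat.le_floor (H.deg_sd v true), Nat.le_floor (H.deg_sd v false)⟩)
    (Nat.ceil_pos.2 hκn) ht
  have hceilt : (⌈κ * n⌉₊ : ℝ) < κ * n + 1 := Nat.ceil_lt_add_one hκn.le
  have hfloor : (⌊δ * n⌋₊ : ℝ) ≤ δ * n := Nat.floor_le hδ0
  have hS3 : (sz F (sd side true) (sd side false) S : ℝ) + 1 ≤ ⌈κ * n⌉₊ + ⌊δ * n⌋₊ := by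
    exact_mod_cast hS2
  refine ⟨S, hSP, ?_, ?_⟩
  · have h1 : κ * n ≤ (sz F (sd side true) (sd side false) S : ℝ) :=
      (Nat.le_ceil _).trans (by exact_mod_cast hS1)
    rcases max_choice (nb F (sd side true) S).card (nb F (sd side false) S).card with h | h
    · refine ⟨true, ?_⟩
      rw [cnt_nbh]
      unfold sz at h1
      rw [h] at h1
      exact h1
    · refine ⟨false, ?_⟩
      rw [cnt_nbh]
      unfold sz at h1
      rw [h] at h1
      exact h1
  · intro b'
    rw [cnt_nbh]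
    have := hszle b' S
    nlinarith

/-- PD-8 -/
theorem exists_cherry {α β γ : Type} (A : Finset α) (B : Finset β) (C : Finset γ)
    (R : α → β → Prop) (S : β → γ → Prop) (T : α → γ → Prop) (k d : ℝ) (hk : 0 < k)
    (hd : ∀ b ∈ B, ((A.filter fun a => R a b).card : ℝ) ≤ d)
    (hR : ∀ A' ⊆ A, ∀ B' ⊆ B, k ≤ A'.card → k ≤ B'.card → ∃ a ∈ A', ∃ b ∈ B', R a b)
    (hS : ∀ B' ⊆ B, ∀ C' ⊆ C, k ≤ B'.card → k ≤ C'.card → ∃ b ∈ B', ∃ c ∈ C', S b c)
    (hT : ∀ A' ⊆ A, ∀ C' ⊆ C, k ≤ A'.card → k ≤ C'.card → ∃ a ∈ A', ∃ c ∈ C', T a c)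
    (hA : 4 * k + d + 2 ≤ A.card) (hB : 3 * k + 2 ≤ B.card) (hC : 3 * k + 2 ≤ C.card) :
    ∃ a ∈ A, ∃ b ∈ B, ∃ c ∈ C,
      (R a b ∧ T a c ∧ ¬ S b c) ∨ (R a b ∧ S b c ∧ ¬ T a c) ∨ (T a c ∧ S b c ∧ ¬ R a b) :=
  Pool.Agent.Helper68.Piv.cherryR R S T A B C k d hk hR hT hd (by linarith) (by linarith)
    (by linarith)

end Pool.Agent.Helper32.PD
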